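import Mathlib

set_option autoImplicit false

/-!
# CIS graphs with `α ω < |V|`

Take the five-cycle, replace every vertex by three disjoint triangles (so that all vertices of
neighbouring parts are adjacent), and for each of the five pairs of neighbouring parts add one
vertex that is adjacent to exactly the vertices of these two parts. The graph has 50 vertices,
independence number at most 7 and clique number at most 7, and every maximal clique of it meets
every maximal stable set. Lexicographic powers of it show that `α ω / |V|` can be arbitrarily small.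
-/

namespace Pool.Agent.Results.MP_703660_co.Counterexample

open SimpleGraph

/-- `G` is a CIS graph: every (inclusion-)maximal clique and every (inclusion-)maximal stable set
have a common vertex. -/
def IsCIS {V : Type} (G : SimpleGraph V) : Prop :=
  ∀ C S : Set V, Maximal G.IsClique C → Maximal G.IsIndepSet S → (C ∩ S).Nonempty

/-! ### General facts on maximal cliques and stable sets -/

section general

variable {V : Type} {G : SimpleGraph V}

theorem mem_of_maxClique {C : Set V} (hC : Maximal G.IsClique C) {v : V}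
    (h : ∀ u ∈ C, u ≠ v → G.Adj v u) : v ∈ C := by
  have h1 : G.IsClique (insert v C) := by
    rw [isClique_insert]
    exact ⟨hC.prop, fun u hu hne => h u hu (Ne.symm hne)⟩
  exact hC.le_of_ge h1 (Set.subset_insert v C) (Set.mem_insert v C)

theorem mem_of_maxStable {S : Set V} (hS : Maximal G.IsIndepSet S) {v : V}
    (h : ∀ u ∈ S, u ≠ v → ¬ G.Adj v u) : v ∈ S := by
  have h1 : G.IsIndepSet (insert v S) := by
    intro a ha b hb hab
    rcases Set.mem_insert_iff.1 ha with rfl | ha'
    · rcases Set.mem_insert_iff.1 hb with rfl | hb'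
      · exact absurd rfl hab
      · exact h b hb' (Ne.symm hab)
    · rcases Set.mem_insert_iff.1 hb with rfl | hb'
      · exact fun hadj => h a ha' hab hadj.symm
      · exact hS.prop ha' hb' hab
  exact hS.le_of_ge h1 (Set.subset_insert v S) (Set.mem_insert v S)

end general

/-! ### The graph with 50 vertices -/

/-- adjacency of parts: the five-cycle -/
def c5 (i j : ZMod 5) : Prop := j = i + 1 ∨ i = j + 1

instance : DecidableRel c5 := fun i j => by unfold c5; infer_instance

/-- the vertices: `inl (i, a, b)` is the vertex number `b` of the triangle number `a` of the part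
number `i`; `inr i` is the vertex attached to the parts `i` and `i + 1` -/
abbrev V50 : Type := (ZMod 5 × Fin 3 × Fin 3) ⊕ ZMod 5

/-- the adjacency relation -/
def adj50 : V50 → V50 → Prop
  | .inl (i, a, b), .inl (j, c, d) => c5 i j ∨ (i = j ∧ a = c ∧ b ≠ d)
  | .inl (i, _, _), .inr j => i = j ∨ i = j + 1
  | .inr j, .inl (i, _, _) => i = j ∨ i = j + 1
  | .inr _, .inr _ => False

/-- the graph with 50 vertices -/
def G50 : SimpleGraph V50 where
  Adj := adj50
  symm := ⟨by
    rintro (⟨i, a, b⟩ | i) (⟨j, c, d⟩ | j) h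
    · simp only [adj50, c5] at h ⊢
      rcases h with (h | h) | ⟨h1, h2, h3⟩
      · exact Or.inl (Or.inr h)
      · exact Or.inl (Or.inl h)
      · exact Or.inr ⟨h1.symm, h2.symm, h3.symm⟩
    · exact h
    · exact h
    · exact h⟩
  loopless := ⟨by
    rintro (⟨i, a, b⟩ | i) h
    · simp only [adj50, c5] at h
      rcases h with (h | h) | ⟨h1, h2, h3⟩
      · revert h; revert i; decide
      · revert h; revert i; decide
      · exact h3 rfl
    · exact h⟩

theorem adj_ll {i j : ZMod 5} {a b c d : Fin 3} :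
    G50.Adj (.inl (i, a, b)) (.inl (j, c, d)) ↔ c5 i j ∨ (i = j ∧ a = c ∧ b ≠ d) := Iff.rfl

theorem adj_lr {i j : ZMod 5} {a b : Fin 3} :
    G50.Adj (.inl (i, a, b)) (.inr j) ↔ i = j ∨ i = j + 1 := Iff.rfl

theorem adj_rl {i j : ZMod 5} {a b : Fin 3} :
    G50.Adj (.inr j) (.inl (i, a, b)) ↔ i = j ∨ i = j + 1 := Iff.rfl

theorem adj_rr {i j : ZMod 5} : ¬ G50.Adj (.inr i) (.inr j) := fun h => h

/-- the set of parts met by a set of vertices -/
def parts (X : Set V50) : Set (ZMod 5) := {i | ∃ a b, Sum.inl (i, a, b) ∈ X}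

theorem pair_of_clique (T : Set (ZMod 5)) (hT : ∀ i ∈ T, ∀ j ∈ T, i = j ∨ c5 i j) :
    ∃ i, ∀ j ∈ T, j = i ∨ j = i + 1 := by
  have key : ∀ T : Finset (ZMod 5), (∀ i ∈ T, ∀ j ∈ T, i = j ∨ c5 i j) →
      ∃ i, ∀ j ∈ T, j = i ∨ j = i + 1 := by decide
  classical
  have := key (Finset.univ.filter (· ∈ T)) (by simpa using hT)
  simpa using this

theorem cis50 : IsCIS G50 := by
  intro C S hC hS
  -- the clique contains an attached vertex
  have hparts : ∀ i ∈ parts C, ∀ j ∈ parts C, i = j ∨ c5 i j := by
    rintro i ⟨a, b, h1⟩ j ⟨c, d, h2⟩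
    by_cases h : (Sum.inl (i, a, b) : V50) = Sum.inl (j, c, d)
    · left
      simp only [Sum.inl.injEq, Prod.mk.injEq] at h
      exact h.1
    · rcases adj_ll.1 (hC.prop h1 h2 h) with h3 | h3
      · exact Or.inr h3
      · exact Or.inl h3.1
  obtain ⟨i, hi⟩ : ∃ i, (Sum.inr i : V50) ∈ C := by
    by_contra hno
    push Not at hno
    obtain ⟨i, hi⟩ := pair_of_clique _ hparts
    refine hno i (mem_of_maxClique hC ?_)
    rintro (⟨j, a, b⟩ | j) hu _
    · exact adj_rl.2 (hi j ⟨a, b, hu⟩)
    · exact absurd hu (hno j)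
  have hin : ∀ j a b, (Sum.inl (j, a, b) : V50) ∈ C → j = i ∨ j = i + 1 := by
    intro j a b h
    exact adj_rl.1 (hC.prop hi h (by simp))
  have hw : ∀ j, (Sum.inr j : V50) ∈ C → j = i := by
    intro j h
    by_contra hne
    exact adj_rr (hC.prop h hi (by simpa using hne))
  by_cases hSi : (Sum.inr i : V50) ∈ S
  · exact ⟨_, hi, hSi⟩
  -- a neighbour of the attached vertex in `S`
  obtain ⟨j, p, q, hjS, hj⟩ : ∃ j p q, (Sum.inl (j, p, q) : V50) ∈ S ∧ (j = i ∨ j = i + 1) := by
    by_contra hno
    push Not at hno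
    refine hSi (mem_of_maxStable hS ?_)
    rintro (⟨j, a, b⟩ | j) hu _
    · intro h
      have := adj_rl.1 h
      have h2 := hno j a b hu
      rcases this with h3 | h3
      · exact h2.1 h3
      · exact h2.2 h3
    · exact adj_rr
  have hcyc : c5 i (i + 1) := Or.inl rfl
  have hcyc' : c5 (i + 1) i := Or.inr rfl
  have hself : ∀ k : ZMod 5, ¬ c5 k k := by decide
  -- `C` meets the part `j`
  have hmeet : ∃ a b, (Sum.inl (j, a, b) : V50) ∈ C := by
    by_contra hno
    push Not at hno
    refine hno 0 0 (mem_of_maxClique hC ?_)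
    rintro (⟨k, a, b⟩ | k) hu _
    · apply adj_ll.2
      left
      have hk := hin k a b hu
      have hkj : k ≠ j := by rintro rfl; exact hno a b hu
      rcases hj with rfl | rfl <;> rcases hk with rfl | rfl
      · exact absurd rfl hkj
      · exact hcyc
      · exact hcyc'
      · exact absurd rfl hkj
    · rw [hw k hu]
      exact adj_lr.2 hj
  obtain ⟨a, b, hab⟩ := hmeet
  -- the whole triangle of this vertex is in `C`
  have htri : ∀ d, (Sum.inl (j, a, d) : V50) ∈ C := by
    intro d
    refine mem_of_maxClique hC ?_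
    rintro (⟨k, c, e⟩ | k) hu hne
    · apply adj_ll.2
      by_cases hkj : k = j
      · subst hkj
        right
        refine ⟨rfl, ?_, ?_⟩
        · by_cases h0 : (Sum.inl (k, a, b) : V50) = Sum.inl (k, c, e)
          · simp only [Sum.inl.injEq, Prod.mk.injEq, true_and] at h0
            exact h0.1
          · rcases adj_ll.1 (hC.prop hab hu h0) with h3 | h3
            · exact absurd h3 (hself k)
            · exact h3.2.1
        · rintro rfl
          by_cases h0 : (Sum.inl (k, a, b) : V50) = Sum.inl (k, c, d)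
          · simp only [Sum.inl.injEq, Prod.mk.injEq, true_and] at h0
            apply hne
            rw [h0.1]
          · rcases adj_ll.1 (hC.prop hab hu h0) with h3 | h3
            · exact absurd h3 (hself k)
            · apply hne
              rw [h3.2.1]
      · left
        have hk := hin k c e hu
        rcases hj with rfl | rfl <;> rcases hk with rfl | rfl
        · exact absurd rfl hkj
        · exact hcyc
        · exact hcyc'
        · exact absurd rfl hkj
    · rw [hw k hu]
      exact adj_lr.2 hj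
  -- `S` meets this triangle
  have hSt : ∃ d, (Sum.inl (j, a, d) : V50) ∈ S := by
    by_contra hno
    push Not at hno
    refine hno 0 (mem_of_maxStable hS ?_)
    rintro (⟨k, c, e⟩ | k) hu hne hadj
    · rcases adj_ll.1 hadj with h3 | ⟨h3, h4, h5⟩
      · -- a neighbouring part
        have hne' : (Sum.inl (j, p, q) : V50) ≠ Sum.inl (k, c, e) := by
          intro h0
          simp only [Sum.inl.injEq, Prod.mk.injEq] at h0
          rw [h0.1] at h3
          exact hself k h3
        exact hS.prop hjS hu hne' (adj_ll.2 (Or.inl h3))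
      · rw [← h3, ← h4] at hu
        exact hno e hu
    · have h3 := adj_lr.1 hadj
      exact hS.prop hjS hu (by simp) (adj_lr.2 h3)
  obtain ⟨d, hd⟩ := hSt
  exact ⟨_, htri d, hd⟩

/-! #### The independence number and the clique number -/

/-- a finite set of vertices is counted by the parts that it meets -/
theorem card_count (X : Finset V50) (T : Finset (ZMod 5)) (W : Finset (ZMod 5))
    (hT : ∀ i a b, Sum.inl (i, a, b) ∈ X → i ∈ T)
    (hW : ∀ i, Sum.inr i ∈ X → i ∈ W)
    (h3 : ∀ i, (X.filter (fun v => ∃ a b, v = Sum.inl (i, a, b))).card ≤ 3) :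
    X.card ≤ 3 * T.card + W.card := by
  classical
  have hsub : X ⊆ (T.biUnion fun i => X.filter (fun v => ∃ a b, v = Sum.inl (i, a, b))) ∪
      W.image Sum.inr := by
    rintro (⟨i, a, b⟩ | i) hx
    · rw [Finset.mem_union]
      left
      rw [Finset.mem_biUnion]
      exact ⟨i, hT i a b hx, Finset.mem_filter.2 ⟨hx, a, b, rfl⟩⟩
    · rw [Finset.mem_union]
      right
      exact Finset.mem_image_of_mem _ (hW i hx)
  refine (Finset.card_le_card hsub).trans ((Finset.card_union_le _ _).trans ?_)
  refine Nat.add_le_add ?_ Finset.card_image_le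
  refine Finset.card_biUnion_le.trans ?_
  refine (Finset.sum_le_card_nsmul _ _ 3 fun i _ => h3 i).trans ?_
  rw [smul_eq_mul, mul_comm]

theorem indep50 (X : Finset V50) (hX : G50.IsIndepSet X) : X.card ≤ 7 := by
  classical
  set T : Finset (ZMod 5) := Finset.univ.filter fun i => ∃ a b, Sum.inl (i, a, b) ∈ X with hTd
  have key : ∀ T : Finset (ZMod 5), (∀ i ∈ T, ∀ j ∈ T, ¬ c5 i j) →
      3 * T.card + (Finset.univ.filter fun i => i ∉ T ∧ i + 1 ∉ T).card ≤ 7 := by decide
  have hT : ∀ i a b, Sum.inl (i, a, b) ∈ X → i ∈ T := by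
    intro i a b h
    exact Finset.mem_filter.2 ⟨Finset.mem_univ _, a, b, h⟩
  have hT2 : ∀ i ∈ T, ∀ j ∈ T, ¬ c5 i j := by
    intro i hi j hj hc
    obtain ⟨-, a, b, h1⟩ := Finset.mem_filter.1 hi
    obtain ⟨-, c, d, h2⟩ := Finset.mem_filter.1 hj
    have hne : (Sum.inl (i, a, b) : V50) ≠ Sum.inl (j, c, d) := by
      intro h0
      simp only [Sum.inl.injEq, Prod.mk.injEq] at h0
      rw [h0.1] at hc
      have hself : ∀ k : ZMod 5, ¬ c5 k k := by decide
      exact hself j hc
    exact hX (Finset.mem_coe.2 h1) (Finset.mem_coe.2 h2) hne (adj_ll.2 (Or.inl hc))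
  refine (card_count X T (Finset.univ.filter fun i => i ∉ T ∧ i + 1 ∉ T) hT ?_ ?_).trans
    (key T hT2)
  · intro i hi
    refine Finset.mem_filter.2 ⟨Finset.mem_univ _, ?_, ?_⟩
    · intro h
      obtain ⟨-, a, b, h1⟩ := Finset.mem_filter.1 h
      exact hX (Finset.mem_coe.2 h1) (Finset.mem_coe.2 hi) (by simp) (adj_lr.2 (Or.inl rfl))
    · intro h
      obtain ⟨-, a, b, h1⟩ := Finset.mem_filter.1 h
      exact hX (Finset.mem_coe.2 h1) (Finset.mem_coe.2 hi) (by simp) (adj_lr.2 (Or.inr rfl))
  · intro i
    -- at most one vertex in every triangle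
    have : (X.filter (fun v => ∃ a b, v = Sum.inl (i, a, b))).card ≤
        (Finset.univ : Finset (Fin 3)).card := by
      apply Finset.card_le_card_of_injOn
        (fun v => match v with | .inl (_, a, _) => a | .inr _ => 0)
      · intro v _
        exact Finset.mem_coe.2 (Finset.mem_univ _)
      · intro v hv w hw hvw
        obtain ⟨hv1, a, b, rfl⟩ := Finset.mem_filter.1 (Finset.mem_coe.1 hv)
        obtain ⟨hw1, c, d, rfl⟩ := Finset.mem_filter.1 (Finset.mem_coe.1 hw)
        simp only at hvw
        by_contra hne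
        refine hX (Finset.mem_coe.2 hv1) (Finset.mem_coe.2 hw1) hne (adj_ll.2 (Or.inr
          ⟨rfl, hvw, ?_⟩))
        rintro rfl
        exact hne (by rw [hvw])
    simpa using this

theorem clique50 (X : Finset V50) (hX : G50.IsClique X) : X.card ≤ 7 := by
  classical
  set T : Finset (ZMod 5) := Finset.univ.filter fun i => ∃ a b, Sum.inl (i, a, b) ∈ X with hTd
  set W : Finset (ZMod 5) := Finset.univ.filter fun i => Sum.inr i ∈ X with hWd
  have key : ∀ T : Finset (ZMod 5), (∀ i ∈ T, ∀ j ∈ T, i = j ∨ c5 i j) → T.card ≤ 2 := by decide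
  have hT : ∀ i a b, Sum.inl (i, a, b) ∈ X → i ∈ T := by
    intro i a b h
    exact Finset.mem_filter.2 ⟨Finset.mem_univ _, a, b, h⟩
  have hT2 : ∀ i ∈ T, ∀ j ∈ T, i = j ∨ c5 i j := by
    intro i hi j hj
    obtain ⟨-, a, b, h1⟩ := Finset.mem_filter.1 hi
    obtain ⟨-, c, d, h2⟩ := Finset.mem_filter.1 hj
    by_cases hne : (Sum.inl (i, a, b) : V50) = Sum.inl (j, c, d)
    · left
      simp only [Sum.inl.injEq, Prod.mk.injEq] at hne
      exact hne.1
    · rcases adj_ll.1 (hX (Finset.mem_coe.2 h1) (Finset.mem_coe.2 h2) hne) with h3 | h3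
      · exact Or.inr h3
      · exact Or.inl h3.1
  have hW : W.card ≤ 1 := by
    rw [Finset.card_le_one]
    intro i hi j hj
    by_contra hne
    exact adj_rr (hX (Finset.mem_coe.2 (Finset.mem_filter.1 hi).2)
      (Finset.mem_coe.2 (Finset.mem_filter.1 hj).2) (by simpa using hne))
  have h := card_count X T W hT (fun i hi => Finset.mem_filter.2 ⟨Finset.mem_univ _, hi⟩) ?_
  · have := key T hT2
    omega
  · intro i
    have : (X.filter (fun v => ∃ a b, v = Sum.inl (i, a, b))).card ≤
        (Finset.univ : Finset (Fin 3)).card := by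
      apply Finset.card_le_card_of_injOn
        (fun v => match v with | .inl (_, _, b) => b | .inr _ => 0)
      · intro v _
        exact Finset.mem_coe.2 (Finset.mem_univ _)
      · intro v hv w hw hvw
        obtain ⟨hv1, a, b, rfl⟩ := Finset.mem_filter.1 (Finset.mem_coe.1 hv)
        obtain ⟨hw1, c, d, rfl⟩ := Finset.mem_filter.1 (Finset.mem_coe.1 hw)
        simp only at hvw
        by_contra hne
        have hself : ∀ k : ZMod 5, ¬ c5 k k := by decide
        rcases adj_ll.1 (hX (Finset.mem_coe.2 hv1) (Finset.mem_coe.2 hw1) hne) with h3 | h3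
        · exact hself i h3
        · exact h3.2.2 hvw
    simpa using this

/-! ### Lexicographic products -/

section lex

variable {V W : Type} (G : SimpleGraph V) (H : SimpleGraph W)

/-- the lexicographic product `G[H]` -/
def lex : SimpleGraph (V × W) where
  Adj x y := G.Adj x.1 y.1 ∨ (x.1 = y.1 ∧ H.Adj x.2 y.2)
  symm := ⟨by
    rintro x y (h | ⟨h1, h2⟩)
    · exact Or.inl h.symm
    · exact Or.inr ⟨h1.symm, h2.symm⟩⟩
  loopless := ⟨by
    rintro x (h | ⟨-, h⟩)
    · exact G.loopless.irrefl _ h
    · exact H.loopless.irrefl _ h⟩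

theorem lex_cis [Nonempty W] (hG : IsCIS G) (hH : IsCIS H) : IsCIS (lex G H) := by
  intro C S hC hS
  have hCG : Maximal G.IsClique (Prod.fst '' C) := by
    refine ⟨?_, ?_⟩
    · rintro _ ⟨x, hx, rfl⟩ _ ⟨y, hy, rfl⟩ hne
      rcases hC.prop hx hy (fun h => hne (by rw [h])) with h | h
      · exact h
      · exact absurd h.1 hne
    · intro D hD hCD v hv
      obtain ⟨w⟩ := ‹Nonempty W›
      by_cases hvC : v ∈ Prod.fst '' C
      · exact hvC
      · refine ⟨(v, w), mem_of_maxClique hC ?_, rfl⟩
        intro u hu _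
        left
        have huC : u.1 ∈ Prod.fst '' C := ⟨u, hu, rfl⟩
        exact hD hv (hCD huC) (fun h => hvC (by rw [show v = u.1 from h]; exact huC))
  have hSG : Maximal G.IsIndepSet (Prod.fst '' S) := by
    refine ⟨?_, ?_⟩
    · rintro _ ⟨x, hx, rfl⟩ _ ⟨y, hy, rfl⟩ hne hadj
      exact hS.prop hx hy (fun h => hne (by rw [h])) (Or.inl hadj)
    · intro D hD hSD v hv
      obtain ⟨w⟩ := ‹Nonempty W›
      by_cases hvS : v ∈ Prod.fst '' S
      · exact hvS
      · refine ⟨(v, w), mem_of_maxStable hS ?_, rfl⟩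
        intro u hu _ hadj
        have huS : u.1 ∈ Prod.fst '' S := ⟨u, hu, rfl⟩
        have hne : v ≠ u.1 := fun h => hvS (by rw [h]; exact huS)
        rcases hadj with h | h
        · exact hD hv (hSD huS) hne h
        · exact hne h.1
  obtain ⟨v, ⟨x, hx, rfl⟩, ⟨y, hy, hyx⟩⟩ := hG _ _ hCG hSG
  have hCH : Maximal H.IsClique {w | (x.1, w) ∈ C} := by
    refine ⟨?_, ?_⟩
    · intro a ha b hb hne
      rcases hC.prop ha hb (fun h => hne (by simpa using h)) with h | h
      · exact absurd h (G.loopless.irrefl _)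
      · exact h.2
    · intro D hD hCD w hw
      refine mem_of_maxClique hC ?_
      rintro ⟨u1, u2⟩ hu hne
      by_cases h1 : x.1 = u1
      · subst h1
        right
        refine ⟨rfl, hD hw (hCD hu) ?_⟩
        rintro rfl
        exact hne rfl
      · left
        rcases hC.prop hx hu (fun h => h1 (by rw [h])) with h | h
        · exact h
        · exact absurd h.1 h1
  have hSH : Maximal H.IsIndepSet {w | (x.1, w) ∈ S} := by
    refine ⟨?_, ?_⟩
    · intro a ha b hb hne hadj
      exact hS.prop ha hb (fun h => hne (by simpa using h)) (Or.inr ⟨rfl, hadj⟩)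
    · intro D hD hSD w hw
      refine mem_of_maxStable hS ?_
      rintro ⟨u1, u2⟩ hu hne hadj
      by_cases h1 : x.1 = u1
      · subst h1
        rcases hadj with h | h
        · exact G.loopless.irrefl _ h
        · refine hD hw (hSD hu) ?_ h.2
          rintro rfl
          exact hne rfl
      · rcases hadj with h | h
        · have hyu : y ≠ (u1, u2) := by
            intro h0
            rw [h0] at hyx
            exact h1 hyx.symm
          refine hS.prop hy hu hyu (Or.inl ?_)
          rw [hyx]
          exact h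
        · exact h1 h.1
  obtain ⟨w, hw1, hw2⟩ := hH _ _ hCH hSH
  exact ⟨(x.1, w), hw1, hw2⟩

theorem lex_card_le [DecidableEq V] {X : Finset (V × W)} {p q : ℕ}
    (h1 : (X.image Prod.fst).card ≤ p)
    (h2 : ∀ v, (X.filter fun x => x.1 = v).card ≤ q) : X.card ≤ p * q := by
  have := Finset.card_le_mul_card_image (s := X) (f := Prod.fst) q (fun v _ => h2 v)
  calc X.card ≤ q * (X.image Prod.fst).card := this
    _ ≤ q * p := Nat.mul_le_mul_left _ h1
    _ = p * q := mul_comm _ _

theorem lex_indep {p q : ℕ} (hG : ∀ X : Finset V, G.IsIndepSet X → X.card ≤ p)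
    (hH : ∀ X : Finset W, H.IsIndepSet X → X.card ≤ q) (X : Finset (V × W))
    (hX : (lex G H).IsIndepSet X) : X.card ≤ p * q := by
  classical
  refine lex_card_le (hG _ ?_) fun v => ?_
  · intro a ha b hb hne hadj
    obtain ⟨x, hx, rfl⟩ := Finset.mem_image.1 (Finset.mem_coe.1 ha)
    obtain ⟨y, hy, rfl⟩ := Finset.mem_image.1 (Finset.mem_coe.1 hb)
    exact hX (Finset.mem_coe.2 hx) (Finset.mem_coe.2 hy) (fun h => hne (by rw [h])) (Or.inl hadj)
  · rw [← Finset.card_image_of_injOn (f := Prod.snd)]
    · apply hH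
      intro a ha b hb hne hadj
      obtain ⟨x, hx, rfl⟩ := Finset.mem_image.1 (Finset.mem_coe.1 ha)
      obtain ⟨y, hy, rfl⟩ := Finset.mem_image.1 (Finset.mem_coe.1 hb)
      rw [Finset.mem_filter] at hx hy
      exact hX (Finset.mem_coe.2 hx.1) (Finset.mem_coe.2 hy.1) (fun h => hne (by rw [h]))
        (Or.inr ⟨hx.2.trans hy.2.symm, hadj⟩)
    · intro x hx y hy hxy
      have hx' := (Finset.mem_filter.1 (Finset.mem_coe.1 hx)).2
      have hy' := (Finset.mem_filter.1 (Finset.mem_coe.1 hy)).2
      exact Prod.ext (hx'.trans hy'.symm) hxy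

theorem lex_clique {p q : ℕ} (hG : ∀ X : Finset V, G.IsClique X → X.card ≤ p)
    (hH : ∀ X : Finset W, H.IsClique X → X.card ≤ q) (X : Finset (V × W))
    (hX : (lex G H).IsClique X) : X.card ≤ p * q := by
  classical
  refine lex_card_le (hG _ ?_) fun v => ?_
  · intro a ha b hb hne
    obtain ⟨x, hx, rfl⟩ := Finset.mem_image.1 (Finset.mem_coe.1 ha)
    obtain ⟨y, hy, rfl⟩ := Finset.mem_image.1 (Finset.mem_coe.1 hb)
    rcases hX (Finset.mem_coe.2 hx) (Finset.mem_coe.2 hy) (fun h => hne (by rw [h])) with h | h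
    · exact h
    · exact absurd h.1 hne
  · rw [← Finset.card_image_of_injOn (f := Prod.snd)]
    · apply hH
      intro a ha b hb hne
      obtain ⟨x, hx, rfl⟩ := Finset.mem_image.1 (Finset.mem_coe.1 ha)
      obtain ⟨y, hy, rfl⟩ := Finset.mem_image.1 (Finset.mem_coe.1 hb)
      rw [Finset.mem_filter] at hx hy
      rcases hX (Finset.mem_coe.2 hx.1) (Finset.mem_coe.2 hy.1) (fun h => hne (by rw [h]))
        with h | h
      · rw [hx.2, hy.2] at h
        exact absurd h (G.loopless.irrefl _)
      · exact h.2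
    · intro x hx y hy hxy
      have hx' := (Finset.mem_filter.1 (Finset.mem_coe.1 hx)).2
      have hy' := (Finset.mem_filter.1 (Finset.mem_coe.1 hy)).2
      exact Prod.ext (hx'.trans hy'.symm) hxy

end lex

/-! ### The result -/

theorem powers (k : ℕ) : ∃ (V : Type) (_ : Fintype V) (_ : Nonempty V) (G : SimpleGraph V),
    IsCIS G ∧ Fintype.card V = 50 ^ k ∧ (∀ X : Finset V, G.IsIndepSet X → X.card ≤ 7 ^ k) ∧
      (∀ X : Finset V, G.IsClique X → X.card ≤ 7 ^ k) := by
  induction k with
  | zero =>
    refine ⟨Unit, inferInstance, inferInstance, ⊥, ?_, by simp, ?_, ?_⟩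
    · intro C S hC hS
      refine ⟨(), mem_of_maxClique hC ?_, mem_of_maxStable hS ?_⟩
      · intro u _ hne
        exact absurd rfl hne
      · intro u _ hne
        exact absurd rfl hne
    · intro X _
      simpa using Finset.card_le_univ X
    · intro X _
      simpa using Finset.card_le_univ X
  | succ k ih =>
    obtain ⟨V, _, _, G, h1, h2, h3, h4⟩ := ih
    refine ⟨V × V50, inferInstance, inferInstance, lex G G50, lex_cis G G50 h1 cis50, ?_, ?_, ?_⟩
    · rw [Fintype.card_prod, h2, pow_succ]
      congr 1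
    · intro X hX
      rw [pow_succ]
      exact lex_indep G G50 h3 indep50 X hX
    · intro X hX
      rw [pow_succ]
      exact lex_clique G G50 h4 clique50 X hX

/-- **Q1 of MP_703660_co, negative answer.** There is a finite CIS graph with
`α ω < |V|`, namely one with 50 vertices and `α, ω ≤ 7`. Moreover the quotient `α ω / |V|` of CIS
graphs can be arbitrarily small: for every `k` there is a CIS graph with `50 ^ k` vertices and
`α ω ≤ 49 ^ k`. -/
theorem result :
    (∃ (V : Type) (_ : Fintype V) (G : SimpleGraph V), IsCIS G ∧ Fintype.card V = 50 ∧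
      G.indepNum ≤ 7 ∧ G.cliqueNum ≤ 7 ∧ G.indepNum * G.cliqueNum < Fintype.card V) ∧
    (∀ k : ℕ, ∃ (V : Type) (_ : Fintype V) (G : SimpleGraph V), IsCIS G ∧
      Fintype.card V = 50 ^ k ∧ G.indepNum * G.cliqueNum ≤ 49 ^ k) := by
  refine ⟨⟨V50, inferInstance, G50, cis50, by rfl, ?_, ?_, ?_⟩, ?_⟩
  · obtain ⟨s, hs⟩ := G50.exists_isNIndepSet_indepNum
    rw [← hs.card_eq]
    exact indep50 s hs.isIndepSet
  · obtain ⟨s, hs⟩ := G50.exists_isNClique_cliqueNum
    rw [← hs.card_eq]
    exact clique50 s hs.isClique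
  · have h1 : G50.indepNum ≤ 7 := by
      obtain ⟨s, hs⟩ := G50.exists_isNIndepSet_indepNum
      rw [← hs.card_eq]
      exact indep50 s hs.isIndepSet
    have h2 : G50.cliqueNum ≤ 7 := by
      obtain ⟨s, hs⟩ := G50.exists_isNClique_cliqueNum
      rw [← hs.card_eq]
      exact clique50 s hs.isClique
    have h3 : Fintype.card V50 = 50 := by rfl
    rw [h3]
    calc G50.indepNum * G50.cliqueNum ≤ 7 * 7 := Nat.mul_le_mul h1 h2
      _ < 50 := by norm_num
  · intro k
    obtain ⟨V, i1, _, G, h1, h2, h3, h4⟩ := powers k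
    refine ⟨V, i1, G, h1, h2, ?_⟩
    have h5 : G.indepNum ≤ 7 ^ k := by
      obtain ⟨s, hs⟩ := G.exists_isNIndepSet_indepNum
      rw [← hs.card_eq]
      exact h3 s hs.isIndepSet
    have h6 : G.cliqueNum ≤ 7 ^ k := by
      obtain ⟨s, hs⟩ := G.exists_isNClique_cliqueNum
      rw [← hs.card_eq]
      exact h4 s hs.isClique
    calc G.indepNum * G.cliqueNum ≤ 7 ^ k * 7 ^ k := Nat.mul_le_mul h5 h6
      _ = 49 ^ k := by rw [← mul_pow]; norm_num

end Pool.Agent.Results.MP_703660_co.Counterexample
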